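import Pool.Agent.W257.HL.Stm
import Pool.Agent.W472.AC.RothThm

set_option autoImplicit false
set_option linter.all false

namespace Pool.Agent.W918.HL

open Polynomial

/-- The cubic has no rational roots. -/
def NR (x y : ℤ) : Prop := ∀ r : ℚ, r ^ 3 - 3 * x * r + 2 * y ≠ 0

theorem irr {x y : ℤ} (h : NR x y) {z : ℝ} (hz : z ^ 3 - 3 * x * z + 2 * y = 0) : Irrational z := by
  rintro ⟨s, rfl⟩
  apply h s
  have h1 : ((s ^ 3 - 3 * x * s + 2 * y : ℚ) : ℝ) = 0 := by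
    push_cast
    exact hz
  exact_mod_cast h1

theorem lin0 {z : ℝ} (h : Irrational z) (q r : ℚ) (e : (q : ℝ) * z + r = 0) : q = 0 ∧ r = 0 := by
  by_cases hq : q = 0
  · refine ⟨hq, ?_⟩
    rw [hq] at e
    have : (r : ℝ) = 0 := by
      push_cast at e
      linarith
    exact_mod_cast this
  · exfalso
    apply h
    refine ⟨-r / q, ?_⟩
    have hq' : (q : ℝ) ≠ 0 := by exact_mod_cast hq
    push_cast
    field_simp
    linarith

theorem deg3 {x y : ℤ} (h : NR x y) {z : ℝ} (hz : z ^ 3 - 3 * x * z + 2 * y = 0) (p q r : ℚ)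
    (e : (p : ℝ) * z ^ 2 + q * z + r = 0) : p = 0 ∧ q = 0 ∧ r = 0 := by
  have hi := irr h hz
  by_cases hp : p = 0
  · refine ⟨hp, ?_⟩
    apply lin0 hi
    rw [hp] at e
    push_cast at e
    linarith
  · exfalso
    have hp' : (p : ℝ) ≠ 0 := by exact_mod_cast hp
    have h1 : z ^ 2 = ((-q / p : ℚ) : ℝ) * z + ((-r / p : ℚ) : ℝ) := by
      push_cast
      field_simp
      linarith
    set m : ℚ := -q / p
    set n : ℚ := -r / p
    have h2 : ((m ^ 2 + n - 3 * x : ℚ) : ℝ) * z + ((m * n + 2 * y : ℚ) : ℝ) = 0 := by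
      push_cast
      linear_combination hz - (z + m) * h1
    obtain ⟨h3, h4⟩ := lin0 hi _ _ h2
    apply h (-m)
    linear_combination h4 - m * h3

/-- The polynomial. -/
noncomputable def ff (A B : ℤ) : ℚ[X] := X ^ 3 + (- C (3 * (A : ℚ)) * X + C (2 * (B : ℚ)))

theorem ff_monic (A B : ℤ) : (ff A B).Monic := by
  unfold ff
  apply monic_X_pow_add
  refine lt_of_le_of_lt (degree_add_le _ _) (max_lt ?_ ?_)
  · rw [← C_neg]
    exact lt_of_le_of_lt (degree_C_mul_X_le _) (by norm_num)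
  · exact lt_of_le_of_lt degree_C_le (by norm_num)

theorem ff_deg (A B : ℤ) : (ff A B).natDegree = 3 := by
  unfold ff
  rw [natDegree_add_eq_left_of_degree_lt, natDegree_X_pow]
  rw [degree_X_pow]
  refine lt_of_le_of_lt (degree_add_le _ _) (max_lt ?_ ?_)
  · rw [← C_neg]
    exact lt_of_le_of_lt (degree_C_mul_X_le _) (by norm_num)
  · exact lt_of_le_of_lt degree_C_le (by norm_num)

theorem ff_aeval {K : Type} [Field K] [Algebra ℚ K] (A B : ℤ) (a : K) :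
    aeval a (ff A B) = a ^ 3 - 3 * (A : K) * a + 2 * (B : K) := by
  unfold ff
  simp only [map_add, map_mul, map_neg, map_pow, aeval_X, aeval_C, map_ofNat, map_intCast]
  ring

theorem mod_eq {K : Type} [Field K] [Algebra ℚ K] (A B : ℤ) (a : K)
    (ha : a ^ 3 - 3 * (A : K) * a + 2 * (B : K) = 0) (H : ℚ[X]) :
    aeval a H = aeval a (H %ₘ ff A B) := by
  have h1 := modByMonic_add_div H (ff A B)
  conv_lhs => rw [← h1]
  rw [map_add, map_mul, ff_aeval, ha, zero_mul, add_zero]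

theorem mod_sum {K : Type} [Field K] [Algebra ℚ K] (A B : ℤ) (a : K) (H : ℚ[X]) :
    aeval a (H %ₘ ff A B) = algebraMap ℚ K ((H %ₘ ff A B).coeff 0) +
      algebraMap ℚ K ((H %ₘ ff A B).coeff 1) * a +
      algebraMap ℚ K ((H %ₘ ff A B).coeff 2) * a ^ 2 := by
  have h1 : (H %ₘ ff A B).natDegree < 3 := by
    rw [← ff_deg A B]
    apply natDegree_modByMonic_lt _ (ff_monic A B)
    intro h
    have := ff_deg A B
    rw [h, natDegree_one] at this
    omega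
  rw [aeval_eq_sum_range' h1, Finset.sum_range_succ, Finset.sum_range_succ, Finset.sum_range_one]
  simp only [Algebra.smul_def, pow_zero, pow_one, mul_one]

theorem conj {A B : ℤ} (hN : NR A B) {α : ℝ} (hα : α ^ 3 - 3 * A * α + 2 * B = 0) (H : ℚ[X])
    (hH : aeval α H = 0) (a : ℂ) (ha : a ^ 3 - 3 * (A : ℂ) * a + 2 * (B : ℂ) = 0) :
    aeval a H = 0 := by
  have h1 : aeval α (H %ₘ ff A B) = 0 := by rw [← mod_eq A B α hα]; exact hH
  rw [mod_sum] at h1
  obtain ⟨h2, h3, h4⟩ := deg3 hN hα ((H %ₘ ff A B).coeff 2) ((H %ₘ ff A B).coeff 1)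
    ((H %ₘ ff A B).coeff 0) (by
      simp only [eq_ratCast] at h1
      linarith)
  rw [mod_eq A B a ha, mod_sum, h2, h3, h4]
  simp

theorem tr {A B : ℤ} (hN : NR A B) {α : ℝ} (hα : α ^ 3 - 3 * A * α + 2 * B = 0) (p q r : ℚ)
    (hint : IsIntegral ℤ ((p : ℝ) + q * α + r * α ^ 2)) : ∃ n : ℤ, 3 * p + 6 * A * r = n := by
  obtain ⟨δ, hδ⟩ := IsAlgClosed.exists_pow_nat_eq (12 * (A : ℂ) - 3 * (α : ℂ) ^ 2) (n := 2) (by norm_num)
  obtain ⟨G, hG, hGe⟩ := hint
  have hαC : (α : ℂ) ^ 3 - 3 * (A : ℂ) * (α : ℂ) + 2 * (B : ℂ) = 0 := by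
    exact_mod_cast congrArg (fun t : ℝ => (t : ℂ)) hα
  have key : ∀ a : ℂ, a ^ 3 - 3 * (A : ℂ) * a + 2 * (B : ℂ) = 0 →
      IsIntegral ℤ ((p : ℂ) + q * a + r * a ^ 2) := by
    intro a ha
    refine ⟨G, hG, ?_⟩
    have h1 := conj hN hα ((G.map (algebraMap ℤ ℚ)).comp (C p + C q * X + C r * X ^ 2)) (by
      rw [aeval_comp]
      simp only [map_add, map_mul, map_pow, aeval_X, aeval_C, eq_ratCast]
      rw [aeval_map_algebraMap]
      exact hGe) a ha
    rw [aeval_comp] at h1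
    simp only [map_add, map_mul, map_pow, aeval_X, aeval_C, eq_ratCast] at h1
    rw [aeval_map_algebraMap] at h1
    exact h1
  have i1 := key α hαC
  have i2 := key ((-(α : ℂ) + δ) / 2) (by
    linear_combination (-(3 : ℂ) * α / 8 + δ / 8) * hδ + hαC)
  have i3 := key ((-(α : ℂ) - δ) / 2) (by
    linear_combination (-(3 : ℂ) * α / 8 - δ / 8) * hδ + hαC)
  have i4 := (i1.add i2).add i3
  have e1 : (p : ℂ) + q * (α : ℂ) + r * (α : ℂ) ^ 2 +
      (p + q * ((-(α : ℂ) + δ) / 2) + r * ((-(α : ℂ) + δ) / 2) ^ 2) +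
      (p + q * ((-(α : ℂ) - δ) / 2) + r * ((-(α : ℂ) - δ) / 2) ^ 2) =
      algebraMap ℚ ℂ (3 * p + 6 * A * r) := by
    rw [eq_ratCast]
    push_cast
    linear_combination (r / 2 : ℂ) * hδ
  rw [e1, isIntegral_algebraMap_iff (algebraMap ℚ ℂ).injective] at i4
  obtain ⟨n, hn⟩ := IsIntegrallyClosed.isIntegral_iff.1 i4
  exact ⟨n, by rw [← hn, eq_intCast]⟩

theorem isInt {x y : ℤ} {z : ℝ} (hz : z ^ 3 - 3 * x * z + 2 * y = 0) : IsIntegral ℤ z := by
  refine ⟨X ^ 3 + (- C (3 * x) * X + C (2 * y)), ?_, ?_⟩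
  · apply monic_X_pow_add
    refine lt_of_le_of_lt (degree_add_le _ _) (max_lt ?_ ?_)
    · rw [← C_neg]
      exact lt_of_le_of_lt (degree_C_mul_X_le _) (by norm_num)
    · exact lt_of_le_of_lt degree_C_le (by norm_num)
  · change aeval z (X ^ 3 + (- C (3 * x) * X + C (2 * y)) : ℤ[X]) = 0
    rw [map_add, map_add, map_mul, map_neg, aeval_X_pow, aeval_X, aeval_C, aeval_C]
    rw [eq_intCast, eq_intCast]
    push_cast
    linarith

theorem disc_ne {A B : ℤ} (hN : NR A B) : A ^ 3 - B ^ 2 ≠ 0 := by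
  intro h
  have h1 : A ^ 3 = B ^ 2 := by linarith
  by_cases hA : A = 0
  · have hB : B = 0 := by
      rw [hA] at h1
      have : B ^ 2 = 0 := by linarith [h1]
      exact pow_eq_zero_iff (two_ne_zero) |>.1 this
    apply hN 0
    rw [hA, hB]
    norm_num
  · apply hN (B / A)
    have hA' : (A : ℚ) ≠ 0 := by exact_mod_cast hA
    have h2 : (A : ℚ) ^ 3 = (B : ℚ) ^ 2 := by exact_mod_cast h1
    field_simp
    linear_combination (-(B : ℚ)) * h2

/-- The shape of the elements of the field of `α` whose cubic has no quadratic term. -/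
theorem shape {A B : ℤ} (hN : NR A B) {α : ℝ} (hα : α ^ 3 - 3 * A * α + 2 * B = 0)
    {x y : ℤ} (hx : NR x y) {z : ℝ} (hz : z ^ 3 - 3 * x * z + 2 * y = 0)
    (hP : ∃ P : ℚ[X], aeval α P = z) :
    ∃ u v : ℚ, z = u * α + v * (α ^ 2 - 2 * A) ∧
      4 * (x : ℝ) - z ^ 2 = (4 * A - α ^ 2) * (u - v * α) ^ 2 ∧
      (∃ U V : ℤ, (6 * (A ^ 3 - B ^ 2) : ℚ) * u = U ∧ (6 * (A ^ 3 - B ^ 2) : ℚ) * v = V) := by
  obtain ⟨P, hP⟩ := hP
  rw [mod_eq A B α hα, mod_sum] at hP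
  simp only [eq_ratCast] at hP
  set a : ℚ := (P %ₘ ff A B).coeff 0
  set b : ℚ := (P %ₘ ff A B).coeff 1
  set c : ℚ := (P %ₘ ff A B).coeff 2
  set t : ℚ := a + 2 * A * c with ht
  set x' : ℚ := A * b ^ 2 - 2 * B * b * c + A ^ 2 * c ^ 2 with hx'
  set y' : ℚ := B * b ^ 3 - 3 * A ^ 2 * b ^ 2 * c + 3 * A * B * b * c ^ 2 +
    (A ^ 3 - 2 * B ^ 2) * c ^ 3 with hy'
  have hz' : z - t = b * α + c * (α ^ 2 - 2 * A) := by
    rw [← hP, ht]
    push_cast
    ring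
  have hcub : (z - t) ^ 3 - 3 * x' * (z - t) + 2 * y' = 0 := by
    rw [hz', hx', hy']
    push_cast
    linear_combination (α ^ 3 * c ^ 3 + 3 * α ^ 2 * b * c ^ 2 - 3 * α * A * c ^ 3 +
      3 * α * b ^ 2 * c - 3 * A * b * c ^ 2 - 2 * B * c ^ 3 + b ^ 3) * hα
  have hquad : ((3 * t : ℚ) : ℝ) * z ^ 2 + ((-6 * t ^ 2 + 3 * (t ^ 2 - x + x') : ℚ) : ℝ) * z +
      ((3 * t ^ 3 - 3 * (t ^ 2 - x + x') * t + t ^ 3 - 3 * x * t + 2 * y - 2 * y' : ℚ) : ℝ) = 0 := by
    push_cast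
    linear_combination hz - hcub
  obtain ⟨h1, h2, h3⟩ := deg3 hx hz _ _ _ hquad
  have ht0 : t = 0 := by linarith
  have hxx : (x : ℚ) = x' := by
    rw [ht0] at h2
    linarith
  have hzz : z = b * α + c * (α ^ 2 - 2 * A) := by
    rw [← hz', ht0]
    simp
  refine ⟨b, c, hzz, ?_, ?_⟩
  · have hxR : (x : ℝ) = ((x' : ℚ) : ℝ) := by exact_mod_cast congrArg (fun q : ℚ => (q : ℝ)) hxx
    rw [hzz, hxR, hx']
    push_cast
    linear_combination (-4 * b * c) * hα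
  · have iz := isInt hz
    have ia := isInt hα
    obtain ⟨n1, hn1⟩ := tr hN hα (-2 * B * c) (A * c) b (by
      have h4 := iz.mul ia
      have e : z * α = ((-2 * B * c : ℚ) : ℝ) + ((A * c : ℚ) : ℝ) * α + (b : ℝ) * α ^ 2 := by
        rw [hzz]
        push_cast
        linear_combination (c : ℝ) * hα
      rwa [e] at h4)
    obtain ⟨n2, hn2⟩ := tr hN hα (-2 * B * b) (3 * A * b - 2 * B * c) (A * c) (by
      have h4 := (iz.mul ia).mul ia
      have e : z * α * α = ((-2 * B * b : ℚ) : ℝ) + ((3 * A * b - 2 * B * c : ℚ) : ℝ) * α +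
          ((A * c : ℚ) : ℝ) * α ^ 2 := by
        rw [hzz]
        push_cast
        linear_combination (α * c + b : ℝ) * hα
      rwa [e] at h4)
    refine ⟨A ^ 2 * n1 + B * n2, B * n1 + A * n2, ?_, ?_⟩
    · push_cast
      rw [← hn1, ← hn2]
      ring
    · push_cast
      rw [← hn1, ← hn2]
      ring

theorem fixed (A B : ℤ) (α : ℝ) (hα : α ^ 3 - 3 * A * α + 2 * B = 0) (hN : NR A B)
    (ε : ℝ) (hε : 0 < ε) :
    ∃ c : ℝ, 0 < c ∧ ∀ (x y : ℤ) (z : ℝ), 1 ≤ x → z ^ 3 - 3 * x * z + 2 * y = 0 → NR x y →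
      (∃ P : ℚ[X], aeval α P = z) → |4 * (x : ℝ) - z ^ 2| ≤ 1 →
      c * (x : ℝ) ^ (-(1 + ε)) ≤ |4 * (x : ℝ) - z ^ 2| := by
  have hirr := irr hN hα
  have halg : IsAlgebraic ℚ α := ⟨ff A B, (ff_monic A B).ne_zero, by rw [ff_aeval]; exact hα⟩
  obtain ⟨c0, hc0, hroth⟩ := Pool.Agent.W472.AC.roth α halg hirr ε hε
  have hW : 4 * (A : ℝ) - α ^ 2 ≠ 0 := by
    intro h
    have h1 := deg3 hN hα (-1) 0 (4 * A) (by push_cast; linarith)
    have h2 : (-1 : ℚ) = 0 := h1.1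
    norm_num at h2
  have hE : 2 * α ^ 2 - 2 * (A : ℝ) ≠ 0 := by
    intro h
    have h1 := deg3 hN hα 2 0 (-2 * A) (by push_cast; linarith)
    have h2 : (2 : ℚ) = 0 := h1.1
    norm_num at h2
  set W : ℝ := |4 * (A : ℝ) - α ^ 2| with hWdef
  set E : ℝ := |2 * α ^ 2 - 2 * (A : ℝ)| with hEdef
  have hW0 : 0 < W := abs_pos.2 hW
  have hE0 : 0 < E := abs_pos.2 hE
  set D : ℝ := ((6 * (A ^ 3 - B ^ 2) : ℤ) : ℝ) with hD
  have hDne : D ≠ 0 := by
    rw [hD]
    have := disc_ne hN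
    exact_mod_cast (by omega : 6 * (A ^ 3 - B ^ 2) ≠ 0)
  have hD0 : 0 < |D| := abs_pos.2 hDne
  have hD2 : 0 < D ^ 2 := by positivity
  set C2 : ℝ := 1 + 1 / W with hC2
  have hC20 : 0 < C2 := by positivity
  set K1 : ℝ := |D| * ((3 + C2 * |α|) / E) + 1 with hK1
  have hK10 : 0 < K1 := by positivity
  refine ⟨W / D ^ 2 * min 1 (c0 ^ 2 * (K1 ^ 2) ^ (-(1 + ε))), by positivity, ?_⟩
  intro x y z hx1 hz hx hP hsmall
  have hxR : (1 : ℝ) ≤ (x : ℝ) := by exact_mod_cast hx1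
  have hx0 : (0 : ℝ) < (x : ℝ) := by linarith
  obtain ⟨u, v, hzuv, hid, U, V, hU, hV⟩ := shape hN hα hx hz hP
  have hUR : D * (u : ℝ) = U := by
    rw [hD]
    have := congrArg (fun q : ℚ => (q : ℝ)) hU
    push_cast at this ⊢
    linarith
  have hVR : D * (v : ℝ) = V := by
    rw [hD]
    have := congrArg (fun q : ℚ => (q : ℝ)) hV
    push_cast at this ⊢
    linarith
  have hY : |4 * (x : ℝ) - z ^ 2| = W / D ^ 2 * ((U : ℝ) - V * α) ^ 2 := by
    rw [hid, abs_mul, abs_of_nonneg (sq_nonneg ((u : ℝ) - v * α)), ← hUR, ← hVR, ← hWdef]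
    field_simp
  rw [hY, mul_assoc]
  apply mul_le_mul_of_nonneg_left _ (by positivity)
  have hpow1 : (x : ℝ) ^ (-(1 + ε)) ≤ 1 := Real.rpow_le_one_of_one_le_of_nonpos hxR (by linarith)
  have hpow0 : 0 < (x : ℝ) ^ (-(1 + ε)) := Real.rpow_pos_of_pos hx0 _
  by_cases hV0 : V = 0
  · -- then `U` is not zero
    have hU0 : U ≠ 0 := by
      intro hU0
      rw [hU0] at hUR
      rw [hV0] at hVR
      have h1 : (u : ℝ) = 0 := by
        have : D * (u : ℝ) = 0 := by rw [hUR]; norm_num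
        exact (mul_eq_zero.1 this).resolve_left hDne
      have h2 : (v : ℝ) = 0 := by
        have : D * (v : ℝ) = 0 := by rw [hVR]; norm_num
        exact (mul_eq_zero.1 this).resolve_left hDne
      have h3 : z = 0 := by rw [hzuv, h1, h2]; ring
      apply irr hx hz
      exact ⟨0, by rw [h3]; norm_num⟩
    have h1 : (1 : ℝ) ≤ (U : ℝ) ^ 2 := by
      have : 1 ≤ U ^ 2 := by
        have := sq_pos_of_ne_zero hU0
        omega
      exact_mod_cast this
    rw [hV0]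
    have h2 : min 1 (c0 ^ 2 * (K1 ^ 2) ^ (-(1 + ε))) ≤ 1 := min_le_left _ _
    have h3 : 0 < min 1 (c0 ^ 2 * (K1 ^ 2) ^ (-(1 + ε))) := by positivity
    calc _ ≤ (1 : ℝ) * 1 := mul_le_mul h2 hpow1 hpow0.le (by norm_num)
      _ ≤ ((U : ℝ) - ((0 : ℤ) : ℝ) * α) ^ 2 := by
        push_cast
        rw [zero_mul, sub_zero]
        linarith
  · -- Roth
    set q : ℕ := V.natAbs with hq
    have hq1 : 1 ≤ q := by
      rw [hq]
      exact Nat.one_le_iff_ne_zero.2 (Int.natAbs_ne_zero.2 hV0)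
    have hqR : (q : ℝ) = |(V : ℝ)| := by
      rw [hq, Nat.cast_natAbs, Int.cast_abs]
    have hq0 : (0 : ℝ) < (q : ℝ) := by exact_mod_cast hq1
    -- the approximation
    have happ : ∃ p : ℤ, |(q : ℝ) * α - p| = |(U : ℝ) - V * α| := by
      rcases le_total 0 V with h | h
      · refine ⟨U, ?_⟩
        rw [hqR, abs_of_nonneg (by exact_mod_cast h : (0 : ℝ) ≤ V), abs_sub_comm]
      · refine ⟨-U, ?_⟩
        rw [hqR, abs_of_nonpos (by exact_mod_cast h : (V : ℝ) ≤ 0)]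
        push_cast
        congr 1
        ring
    obtain ⟨p, hp⟩ := happ
    have h1 := hroth q hq1 p
    rw [hp] at h1
    -- the size of `V`
    have hs0 : 0 < Real.sqrt x := Real.sqrt_pos.2 hx0
    have hs1 : 1 ≤ Real.sqrt x := by rw [Real.one_le_sqrt]; exact hxR
    have hss : Real.sqrt x ^ 2 = x := Real.sq_sqrt hx0.le
    have hz3 : |z| ≤ 3 * Real.sqrt x := by
      apply abs_le_of_sq_le_sq _ (by positivity)
      rw [mul_pow, hss]
      have := (abs_le.1 hsmall).1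
      nlinarith
    have hdel : |(u : ℝ) - v * α| ≤ C2 := by
      have h2 : W * ((u : ℝ) - v * α) ^ 2 ≤ 1 := by
        have : |4 * (x : ℝ) - z ^ 2| = W * ((u : ℝ) - v * α) ^ 2 := by
          rw [hid, abs_mul, abs_of_nonneg (sq_nonneg ((u : ℝ) - v * α))]
        linarith
      have h3 : ((u : ℝ) - v * α) ^ 2 ≤ 1 / W := by
        rw [le_div_iff₀ hW0]
        linarith
      apply abs_le_of_sq_le_sq _ hC20.le
      have h4 : 0 < 1 / W := by positivity
      have h5 : C2 ^ 2 = 1 + 2 * (1 / W) + (1 / W) ^ 2 := by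
        rw [hC2]
        ring
      rw [h5]
      have h6 : 0 ≤ (1 / W) ^ 2 := sq_nonneg _
      linarith
    have hv : |(v : ℝ)| * E ≤ (3 + C2 * |α|) * Real.sqrt x := by
      have h2 : (v : ℝ) * (2 * α ^ 2 - 2 * A) = z - ((u : ℝ) - v * α) * α := by
        rw [hzuv]
        ring
      have h3 : |(v : ℝ)| * E = |z - ((u : ℝ) - v * α) * α| := by
        rw [← h2, abs_mul]
      rw [h3]
      calc |z - ((u : ℝ) - v * α) * α| ≤ |z| + |((u : ℝ) - v * α) * α| := abs_sub _ _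
        _ ≤ 3 * Real.sqrt x + C2 * |α| := by
          rw [abs_mul]
          exact add_le_add hz3 (mul_le_mul_of_nonneg_right hdel (abs_nonneg _))
        _ ≤ (3 + C2 * |α|) * Real.sqrt x := by
          have h4 : C2 * |α| ≤ C2 * |α| * Real.sqrt x :=
            le_mul_of_one_le_right (by positivity) hs1
          have h5 : (3 + C2 * |α|) * Real.sqrt x = 3 * Real.sqrt x + C2 * |α| * Real.sqrt x := by
            ring
          rw [h5]
          linarith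
    have hqK : (q : ℝ) ≤ K1 * Real.sqrt x := by
      rw [hqR, ← hVR, abs_mul]
      have h2 : |(v : ℝ)| ≤ (3 + C2 * |α|) / E * Real.sqrt x := by
        rw [div_mul_eq_mul_div, le_div_iff₀ hE0]
        exact hv
      calc |D| * |(v : ℝ)| ≤ |D| * ((3 + C2 * |α|) / E * Real.sqrt x) :=
            mul_le_mul_of_nonneg_left h2 hD0.le
        _ ≤ K1 * Real.sqrt x := by
          have h5 : K1 * Real.sqrt x = |D| * ((3 + C2 * |α|) / E * Real.sqrt x) + Real.sqrt x := by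
            rw [hK1]
            ring
          rw [h5]
          linarith
    -- squares
    have h5 : (0 : ℝ) < (q : ℝ) ^ (1 + ε) := Real.rpow_pos_of_pos hq0 _
    have h6 : c0 ^ 2 ≤ ((q : ℝ) ^ 2) ^ (1 + ε) * ((U : ℝ) - V * α) ^ 2 := by
      have h7 : c0 ^ 2 ≤ ((q : ℝ) ^ (1 + ε) * |(U : ℝ) - V * α|) ^ 2 :=
        pow_le_pow_left₀ hc0.le h1 2
      rw [mul_pow, sq_abs] at h7
      have h8 : ((q : ℝ) ^ (1 + ε)) ^ 2 = ((q : ℝ) ^ 2) ^ (1 + ε) := by
        rw [← Real.rpow_natCast, ← Real.rpow_natCast, ← Real.rpow_mul hq0.le,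
          ← Real.rpow_mul hq0.le, mul_comm]
      rwa [h8] at h7
    have h9 : (q : ℝ) ^ 2 ≤ K1 ^ 2 * x := by
      calc (q : ℝ) ^ 2 ≤ (K1 * Real.sqrt x) ^ 2 := pow_le_pow_left₀ hq0.le hqK 2
        _ = K1 ^ 2 * x := by rw [mul_pow, hss]
    have h10 : ((q : ℝ) ^ 2) ^ (1 + ε) ≤ (K1 ^ 2 * x) ^ (1 + ε) :=
      Real.rpow_le_rpow (by positivity) h9 (by linarith)
    have h11 : c0 ^ 2 ≤ (K1 ^ 2 * x) ^ (1 + ε) * ((U : ℝ) - V * α) ^ 2 :=
      h6.trans (mul_le_mul_of_nonneg_right h10 (sq_nonneg _))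
    have h12 : (0 : ℝ) < (K1 ^ 2 * x) ^ (1 + ε) := Real.rpow_pos_of_pos (by positivity) _
    have h13 : c0 ^ 2 * (K1 ^ 2 * x) ^ (-(1 + ε)) ≤ ((U : ℝ) - V * α) ^ 2 := by
      rw [Real.rpow_neg (by positivity), ← div_eq_mul_inv, div_le_iff₀ h12]
      linarith
    rw [Real.mul_rpow (by positivity) hx0.le, ← mul_assoc] at h13
    refine le_trans (mul_le_mul_of_nonneg_right (min_le_right _ _) hpow0.le) h13

end Pool.Agent.W918.HL
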