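import Pool.Agent.W918.HL.HW

set_option autoImplicit false
set_option linter.all false

namespace Pool.Agent.W918.HL

open Polynomial Pool.Agent.W257.HL

/-- The identity for the discriminant. -/
theorem ident {x y : ℝ} {z : ℝ} (hz : z ^ 3 - 3 * x * z + 2 * y = 0) :
    4 * (x ^ 3 - y ^ 2) = (z ^ 2 - x) ^ 2 * (4 * x - z ^ 2) := by
  have h : 2 * y = z * (3 * x - z ^ 2) := by linarith
  have h2 : 4 * y ^ 2 = (z * (3 * x - z ^ 2)) ^ 2 := by rw [← h]; ring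
  linear_combination -h2

/-- The case of a rational root. -/
theorem ratroot {x y : ℤ} (hx : 1 ≤ x) (hxy : y ^ 2 ≠ x ^ 3) (h : ¬ NR x y) :
    (x : ℝ) / 4 ≤ |((y ^ 2 - x ^ 3 : ℤ) : ℝ)| := by
  unfold NR at h
  push Not at h
  obtain ⟨r, hr⟩ := h
  have hint : IsIntegral ℤ r := by
    refine ⟨X ^ 3 + (- C (3 * x) * X + C (2 * y)), ?_, ?_⟩
    · apply monic_X_pow_add
      refine lt_of_le_of_lt (degree_add_le _ _) (max_lt ?_ ?_)
      · rw [← C_neg]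
        exact lt_of_le_of_lt (degree_C_mul_X_le _) (by norm_num)
      · exact lt_of_le_of_lt degree_C_le (by norm_num)
    · change aeval r (X ^ 3 + (- C (3 * x) * X + C (2 * y)) : ℤ[X]) = 0
      rw [map_add, map_add, map_mul, map_neg, aeval_X_pow, aeval_X, aeval_C, aeval_C]
      rw [eq_intCast, eq_intCast]
      push_cast
      linarith
  obtain ⟨n, hn⟩ := IsIntegrallyClosed.isIntegral_iff.1 hint
  rw [eq_intCast] at hn
  rw [← hn] at hr
  have hr' : n ^ 3 - 3 * x * n + 2 * y = 0 := by exact_mod_cast hr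
  have h1 : 2 * y = n * (3 * x - n ^ 2) := by linarith
  have h2 : 4 * (x ^ 3 - y ^ 2) = (x - n ^ 2) ^ 2 * (4 * x - n ^ 2) := by
    have h3 : 4 * y ^ 2 = (n * (3 * x - n ^ 2)) ^ 2 := by rw [← h1]; ring
    linear_combination -h3
  have h4 : (x - n ^ 2) ^ 2 * (4 * x - n ^ 2) ≠ 0 := by
    rw [← h2]
    intro h5
    apply hxy
    linarith
  have h5 : (x - n ^ 2) ^ 2 ≠ 0 := left_ne_zero_of_mul h4
  have h6 : 4 * x - n ^ 2 ≠ 0 := right_ne_zero_of_mul h4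
  have h7 : 1 ≤ (x - n ^ 2) ^ 2 := by
    have := sq_nonneg (x - n ^ 2)
    omega
  have h8 : 1 ≤ |4 * x - n ^ 2| := Int.one_le_abs h6
  have h9 : x ≤ (x - n ^ 2) ^ 2 * |4 * x - n ^ 2| := by
    by_cases h10 : 2 * x ≤ n ^ 2
    · have h11 : x ≤ (x - n ^ 2) ^ 2 := by nlinarith
      calc x ≤ (x - n ^ 2) ^ 2 * 1 := by linarith
        _ ≤ _ := mul_le_mul_of_nonneg_left h8 (sq_nonneg _)
    · push Not at h10
      have h11 : x ≤ |4 * x - n ^ 2| := le_trans (by linarith) (le_abs_self _)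
      calc x ≤ 1 * |4 * x - n ^ 2| := by linarith
        _ ≤ _ := mul_le_mul_of_nonneg_right h7 (abs_nonneg _)
  have h10 : 4 * |y ^ 2 - x ^ 3| = (x - n ^ 2) ^ 2 * |4 * x - n ^ 2| := by
    have h11 : |4 * (x ^ 3 - y ^ 2)| = (x - n ^ 2) ^ 2 * |4 * x - n ^ 2| := by
      rw [h2, abs_mul, abs_of_nonneg (sq_nonneg (x - n ^ 2))]
    rw [← h11, abs_mul, abs_sub_comm]
    norm_num
  rw [← h10] at h9
  have h11 : (x : ℝ) ≤ 4 * |((y ^ 2 - x ^ 3 : ℤ) : ℝ)| := by exact_mod_cast h9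
  linarith

/-- The large root. -/
theorem bigroot0 (x y : ℝ) (hx : 1 ≤ x) (hy : 0 ≤ y) :
    ∃ z : ℝ, z ^ 3 - 3 * x * z + 2 * y = 0 ∧ 3 * x ≤ z ^ 2 := by
  set s : ℝ := Real.sqrt (3 * x) with hs
  have hs2 : s ^ 2 = 3 * x := Real.sq_sqrt (by linarith)
  have hs0 : 0 ≤ s := Real.sqrt_nonneg _
  set R : ℝ := 3 * x + 2 * y + 1 with hR
  have hsR : s ≤ R := by
    apply abs_le_of_sq_le_sq' _ (by linarith) |>.2
    nlinarith
  have hcont : ContinuousOn (fun t : ℝ => t ^ 3 - 3 * x * t + 2 * y) (Set.Icc (-R) (-s)) := by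
    fun_prop
  have h1 := intermediate_value_Icc (by linarith : -R ≤ -s) hcont
  have h2 : (0 : ℝ) ∈ Set.Icc ((-R) ^ 3 - 3 * x * (-R) + 2 * y) ((-s) ^ 3 - 3 * x * (-s) + 2 * y) := by
    constructor
    · have h3 : R * (R ^ 2 - 3 * x) ≥ 1 * (2 * y) := by
        apply mul_le_mul (by linarith) _ (by linarith) (by linarith)
        nlinarith
      nlinarith
    · have h3 : (-s) ^ 3 - 3 * x * (-s) + 2 * y = 2 * y + s * (3 * x - s ^ 2) := by ring
      rw [h3, hs2]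
      linarith
  obtain ⟨t, ht, hft⟩ := h1 h2
  refine ⟨t, hft, ?_⟩
  rw [← hs2]
  have := ht.2
  nlinarith

theorem bigroot (x y : ℝ) (hx : 1 ≤ x) :
    ∃ z : ℝ, z ^ 3 - 3 * x * z + 2 * y = 0 ∧ 3 * x ≤ z ^ 2 := by
  rcases le_total 0 y with h | h
  · exact bigroot0 x y hx h
  · obtain ⟨z, hz, hz2⟩ := bigroot0 x (-y) hx (by linarith)
    exact ⟨-z, by linear_combination -hz, by rw [neg_sq]; exact hz2⟩

/-- One constant for a finite extension. -/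
theorem forL (L : IntermediateField ℚ ℝ) (hL : FiniteDimensional ℚ L) (ε : ℝ) (hε : 0 < ε) :
    ∃ c : ℝ, 0 < c ∧ ∀ (x y : ℤ) (z : ℝ), 1 ≤ x → z ^ 3 - 3 * x * z + 2 * y = 0 → NR x y →
      z ∈ L → |4 * (x : ℝ) - z ^ 2| ≤ 1 →
      c * (x : ℝ) ^ (-(1 + ε)) ≤ |4 * (x : ℝ) - z ^ 2| := by
  have hfin : Finite (IntermediateField ℚ L) := by
    apply Field.finite_intermediateField_of_exists_primitive_element
    exact Field.exists_primitive_element ℚ L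
  have hM : ∀ M : IntermediateField ℚ L, ∃ c : ℝ, 0 < c ∧
      ∀ (x y : ℤ) (z : ℝ), 1 ≤ x → z ^ 3 - 3 * x * z + 2 * y = 0 → NR x y →
      ∀ hz : z ∈ L, IntermediateField.adjoin ℚ {(⟨z, hz⟩ : L)} = M →
      |4 * (x : ℝ) - z ^ 2| ≤ 1 → c * (x : ℝ) ^ (-(1 + ε)) ≤ |4 * (x : ℝ) - z ^ 2| := by
    intro M
    by_cases h : ∃ (A B : ℤ) (α : ℝ) (_ : α ^ 3 - 3 * A * α + 2 * B = 0) (_ : NR A B)
      (hα : α ∈ L), IntermediateField.adjoin ℚ {(⟨α, hα⟩ : L)} = M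
    · obtain ⟨A, B, α, h1, h2, h3, h4⟩ := h
      obtain ⟨c, hc, hcc⟩ := fixed A B α h1 h2 ε hε
      refine ⟨c, hc, ?_⟩
      intro x y z hx hz hN hzL hzM hsmall
      refine hcc x y z hx hz hN ?_ hsmall
      have h5 : (⟨z, hzL⟩ : L) ∈ IntermediateField.adjoin ℚ {(⟨α, h3⟩ : L)} := by
        rw [h4, ← hzM]
        exact IntermediateField.mem_adjoin_simple_self ℚ _
      have hint : IsIntegral ℚ (⟨α, h3⟩ : L) := Algebra.IsIntegral.isIntegral _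
      rw [← IntermediateField.mem_toSubalgebra,
        IntermediateField.adjoin_simple_toSubalgebra_of_isAlgebraic hint.isAlgebraic,
        Algebra.adjoin_singleton_eq_range_aeval] at h5
      obtain ⟨P, hP⟩ := h5
      refine ⟨P, ?_⟩
      have h6 := congrArg (algebraMap L ℝ) hP
      have h7 : algebraMap L ℝ (aeval (⟨α, h3⟩ : L) P) = aeval α P :=
        (aeval_algebraMap_apply ℝ (⟨α, h3⟩ : L) P).symm
      have h8 : algebraMap L ℝ (aeval (⟨α, h3⟩ : L) P) = z := h6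
      rw [← h7, h8]
    · refine ⟨1, one_pos, ?_⟩
      intro x y z hx hz hN hzL hzM hsmall
      exact absurd ⟨x, y, z, hz, hN, hzL, hzM⟩ h
  choose cM hcM hcc using hM
  obtain ⟨M0, hM0⟩ := Finite.exists_min cM
  refine ⟨cM M0, hcM M0, ?_⟩
  intro x y z hx hz hN hzL hsmall
  have h1 := hcc _ x y z hx hz hN hzL rfl hsmall
  refine le_trans (mul_le_mul_of_nonneg_right (hM0 _) ?_) h1
  have : (0 : ℝ) ≤ (x : ℝ) := by
    have : (1 : ℝ) ≤ (x : ℝ) := by exact_mod_cast hx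
    linarith
  exact Real.rpow_nonneg this _

theorem hw : S_HW := by
  intro L hL ε hε
  obtain ⟨c, hc, hcc⟩ := forL L hL ε hε
  refine ⟨min (1 / 4) c, by positivity, ?_⟩
  intro x y hxy hz
  have hm1 : min (1 / 4) c ≤ 1 / 4 := min_le_left _ _
  have hm2 : min (1 / 4) c ≤ c := min_le_right _ _
  have hm0 : 0 < min (1 / 4) c := by positivity
  have hk : 1 ≤ |((y ^ 2 - x ^ 3 : ℤ) : ℝ)| := by
    have : 1 ≤ |y ^ 2 - x ^ 3| := Int.one_le_abs (sub_ne_zero.2 hxy)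
    exact_mod_cast this
  rcases lt_trichotomy x 0 with hx | hx | hx
  · -- negative
    have hx1 : (1 : ℝ) ≤ |(x : ℝ)| := by
      have : 1 ≤ |x| := Int.one_le_abs (by omega)
      exact_mod_cast this
    have h1 : |(x : ℝ)| ^ (1 - ε) ≤ |(x : ℝ)| := by
      calc |(x : ℝ)| ^ (1 - ε) ≤ |(x : ℝ)| ^ (1 : ℝ) :=
            Real.rpow_le_rpow_of_exponent_le hx1 (by linarith)
        _ = |(x : ℝ)| := Real.rpow_one _
    have h2 : |(x : ℝ)| ≤ |((y ^ 2 - x ^ 3 : ℤ) : ℝ)| := by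
      have h3 : |x| ≤ |y ^ 2 - x ^ 3| := by
        rw [abs_of_neg hx]
        refine le_trans ?_ (le_abs_self _)
        have h4 : 1 ≤ x ^ 2 := by nlinarith
        nlinarith [sq_nonneg y]
      exact_mod_cast h3
    have h3 : 0 ≤ |(x : ℝ)| ^ (1 - ε) := Real.rpow_nonneg (abs_nonneg _) _
    calc _ ≤ 1 * |(x : ℝ)| ^ (1 - ε) := mul_le_mul_of_nonneg_right (by linarith) h3
      _ ≤ _ := by linarith
  · -- zero
    have h1 : |(x : ℝ)| ^ (1 - ε) ≤ 1 := by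
      rw [hx]
      simp only [Int.cast_zero, abs_zero]
      exact Real.zero_rpow_le_one _
    have h3 : 0 ≤ |(x : ℝ)| ^ (1 - ε) := Real.rpow_nonneg (abs_nonneg _) _
    calc _ ≤ 1 * |(x : ℝ)| ^ (1 - ε) := mul_le_mul_of_nonneg_right (by linarith) h3
      _ ≤ _ := by linarith
  · -- positive
    have hx1 : (1 : ℝ) ≤ (x : ℝ) := by exact_mod_cast hx
    have hx0 : (0 : ℝ) < (x : ℝ) := by linarith
    have h1 : |(x : ℝ)| ^ (1 - ε) ≤ x := by
      rw [abs_of_pos hx0]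
      calc (x : ℝ) ^ (1 - ε) ≤ (x : ℝ) ^ (1 : ℝ) :=
            Real.rpow_le_rpow_of_exponent_le hx1 (by linarith)
        _ = (x : ℝ) := Real.rpow_one _
    have h0 : 0 ≤ |(x : ℝ)| ^ (1 - ε) := Real.rpow_nonneg (abs_nonneg _) _
    by_cases hN : NR x y
    · obtain ⟨z, hzr, hz2⟩ := bigroot (x : ℝ) (y : ℝ) hx1
      have hzL := hz z hzr
      have hid := ident hzr
      have h4 : |((y ^ 2 - x ^ 3 : ℤ) : ℝ)| * 4 = (z ^ 2 - x) ^ 2 * |4 * (x : ℝ) - z ^ 2| := by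
        have h5 : |4 * ((x : ℝ) ^ 3 - (y : ℝ) ^ 2)| = (z ^ 2 - x) ^ 2 * |4 * (x : ℝ) - z ^ 2| := by
          rw [hid, abs_mul, abs_of_nonneg (sq_nonneg (z ^ 2 - (x : ℝ)))]
        rw [← h5, abs_mul, abs_sub_comm ((x : ℝ) ^ 3)]
        push_cast
        norm_num
        ring
      have h5 : 4 * (x : ℝ) ^ 2 ≤ (z ^ 2 - x) ^ 2 := by nlinarith
      have h6 : (x : ℝ) ^ 2 * |4 * (x : ℝ) - z ^ 2| ≤ |((y ^ 2 - x ^ 3 : ℤ) : ℝ)| := by
        have h7 := mul_le_mul_of_nonneg_right h5 (abs_nonneg (4 * (x : ℝ) - z ^ 2))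
        linarith
      rcases le_total |4 * (x : ℝ) - z ^ 2| 1 with hs | hs
      · have h7 := hcc x y z hx hzr hN hzL hs
        have h8 : (x : ℝ) ^ 2 * (c * (x : ℝ) ^ (-(1 + ε))) = c * |(x : ℝ)| ^ (1 - ε) := by
          rw [abs_of_pos hx0, ← Real.rpow_natCast, mul_left_comm, ← Real.rpow_add hx0]
          congr 2
          push_cast
          ring
        calc _ ≤ c * |(x : ℝ)| ^ (1 - ε) := mul_le_mul_of_nonneg_right hm2 h0
          _ = (x : ℝ) ^ 2 * (c * (x : ℝ) ^ (-(1 + ε))) := h8.symm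
          _ ≤ (x : ℝ) ^ 2 * |4 * (x : ℝ) - z ^ 2| := mul_le_mul_of_nonneg_left h7 (sq_nonneg _)
          _ ≤ _ := h6
      · have h7 : (x : ℝ) ≤ |((y ^ 2 - x ^ 3 : ℤ) : ℝ)| := by
          refine le_trans ?_ h6
          calc (x : ℝ) ≤ (x : ℝ) ^ 2 * 1 := by nlinarith
            _ ≤ _ := mul_le_mul_of_nonneg_left hs (sq_nonneg _)
        calc _ ≤ 1 * |(x : ℝ)| ^ (1 - ε) := mul_le_mul_of_nonneg_right (by linarith) h0
          _ ≤ _ := by linarith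
    · have h2 := ratroot hx hxy hN
      calc _ ≤ 1 / 4 * |(x : ℝ)| ^ (1 - ε) := mul_le_mul_of_nonneg_right hm1 h0
        _ ≤ _ := by linarith

end Pool.Agent.W918.HL
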